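import Pool.Agent.Q187.Arc.Natural

/-!
# MP_c53602_gt: arc-length ratio at support points of rectifiable planar curves

For every continuous rectifiable planar curve that is not constant near its starting point, the
`limsup` as `t → a+` of `sup {L(τ) | τ ∈ S(t)} / L(t)` is at least `1/e`.

Proof.  Otherwise, for some `c > 1` and all small `t`, no parameter whose arc length is at least
`e^{-c} L(t)` is a support parameter.  In the logarithmic arc length `v = log L`, with polar angle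
`θ`, `r = √(D/L)` and `β ∈ (0, π)` the angle between the radius vector and the tangent, this says
`θ(v+c) - θ(v) ≤ β(v)`.  The weight `g = (1 + cos β)/(2r)` satisfies `∫_{w-c}^w g ≥ c - 1 + r(w)`,
because `2 r r' = cos β - r²`, and `g(v) (θ(v+c) - θ(v)) ≤ r(v) θ'(v)` because
`β (1 + cos β)/2 ≤ sin β`.  Integrating over `v` gives a contradiction.
-/

set_option autoImplicit false

open Set Filter Topology

namespace Pool.Agent.Results.MP_c53602_gt.ArcLengthRatio

/-- The determinant of two vectors of the Euclidean plane `ℂ`. -/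
def det2 (u w : ℂ) : ℝ := u.re * w.im - u.im * w.re

/-- `L(t)`, the length of the arc of `γ` over `[a, t]`. -/
noncomputable def arcLength (γ : ℝ → ℂ) (a t : ℝ) : ℝ := (eVariationOn γ (Icc a t)).toReal

/-- `S(t)`: the parameters `τ ∈ (a, t]` such that `γ τ` is a support point of the chord
`[γ a, γ t]`, that is `γ a = γ t`, or `τ` is a local extremum, relative to `[a, b]`, of
`x ↦ det (γ t - γ a, γ x)`. -/
def supportSet (γ : ℝ → ℂ) (a b t : ℝ) : Set ℝ :=
  {τ | τ ∈ Ioc a t ∧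
    (γ a = γ t ∨ IsLocalExtrOn (fun x => det2 (γ t - γ a) (γ x)) (Icc a b) τ)}

/-- **The arc-length ratio at support points is asymptotically at least `1/e`.** -/
theorem result (a b : ℝ) (hab : a < b) (γ : ℝ → ℂ) (hγ : ContinuousOn γ (Icc a b))
    (hrect : eVariationOn γ (Icc a b) ≠ ⊤)
    (hnc : ∀ δ : ℝ, 0 < δ → δ ≤ b - a → ∃ x ∈ Icc a (a + δ), γ x ≠ γ a) :
    1 / Real.exp 1 ≤
      limsup (fun t => sSup (arcLength γ a '' supportSet γ a b t) / arcLength γ a t) (𝓝[>] a) := by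
  set f : ℝ → ℝ := fun t => sSup (arcLength γ a '' supportSet γ a b t) / arcLength γ a t with hf
  by_contra hcon
  push Not at hcon
  rw [one_div, ← Real.exp_neg] at hcon
  have hbv : BoundedVariationOn γ (Icc a b) := hrect
  have ha : a ∈ Icc a b := left_mem_Icc.2 hab.le
  have hl := hbv.locallyBoundedVariationOn
  -- arc length as variation function
  have hL : ∀ t ∈ Icc a b, arcLength γ a t = variationOnFromTo γ (Icc a b) a t := by
    intro t ht
    rw [variationOnFromTo.eq_of_le γ _ ht.1, inter_eq_right.2 (Icc_subset_Icc le_rfl ht.2)]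
    rfl
  have hmono : ∀ x y, x ∈ Icc a b → y ∈ Icc a b → x ≤ y → arcLength γ a x ≤ arcLength γ a y := by
    intro x y hx hy hxy
    rw [hL x hx, hL y hy]
    exact variationOnFromTo.monotoneOn hl ha hx hy hxy
  have hnonneg : ∀ t, 0 ≤ arcLength γ a t := fun t => ENNReal.toReal_nonneg
  have hLpos : ∀ t ∈ Ioc a b, 0 < arcLength γ a t := by
    intro t ht
    obtain ⟨x, hx, hxne⟩ := hnc (t - a) (by linarith [ht.1]) (by linarith [ht.2])
    rw [add_sub_cancel] at hx
    have hfin : eVariationOn γ (Icc a t) ≠ ⊤ :=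
      hbv.mono (Icc_subset_Icc le_rfl ht.2)
    have h1 : edist (γ x) (γ a) ≤ eVariationOn γ (Icc a t) :=
      eVariationOn.edist_le γ hx (left_mem_Icc.2 ht.1.le)
    have h2 : 0 < edist (γ x) (γ a) := edist_pos.2 hxne
    exact ENNReal.toReal_pos (h2.trans_le h1).ne' hfin
  have hmem : ∀ t ∈ Ioo a b, ∀ τ ∈ supportSet γ a b t,
      arcLength γ a τ ≤ arcLength γ a t := by
    intro t ht τ hτ
    exact hmono τ t ⟨hτ.1.1.le, hτ.1.2.trans ht.2.le⟩ ⟨ht.1.le, ht.2.le⟩ hτ.1.2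
  have hfle : ∀ t ∈ Ioo a b, f t ≤ 1 := by
    intro t ht
    have hpos := hLpos t ⟨ht.1, ht.2.le⟩
    rw [hf, div_le_one hpos]
    apply Real.sSup_le _ (hnonneg t)
    rintro _ ⟨τ, hτ, rfl⟩
    exact hmem t ht τ hτ
  have hev : ∀ᶠ t in 𝓝[>] a, t ∈ Ioo a b := Ioo_mem_nhdsGT hab
  have hbdd : IsBoundedUnder (· ≤ ·) (𝓝[>] a) f :=
    ⟨1, by rw [eventually_map]; filter_upwards [hev] with t ht; exact hfle t ht⟩
  -- a constant strictly below `1/e`
  obtain ⟨x₀, hx₁, hx₂⟩ := exists_between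
    (show max (limsup f (𝓝[>] a)) 0 < Real.exp (-1) from max_lt hcon (Real.exp_pos _))
  have hx0 : 0 < x₀ := (le_max_right _ _).trans_lt hx₁
  have hlt := eventually_lt_of_limsup_lt ((le_max_left _ _).trans_lt hx₁) hbdd
  obtain ⟨δ, hδ, hδsub⟩ := mem_nhdsGT_iff_exists_Ioo_subset.1 (hlt.and hev)
  -- `hδ : a < δ`
  have hδ' : a < δ := hδ
  set t₁ := (a + min δ b) / 2 with ht₁
  have hmin : a < min δ b := lt_min hδ' hab
  have ht₁a : a < t₁ := by rw [ht₁]; linarith
  have ht₁m : t₁ < min δ b := by rw [ht₁]; linarith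
  have ht₁δ : t₁ < δ := ht₁m.trans_le (min_le_left _ _)
  have ht₁b : t₁ < b := ht₁m.trans_le (min_le_right _ _)
  set c := -Real.log x₀ with hc
  have hc1 : 1 < c := by
    have : Real.log x₀ < -1 := by
      rw [Real.log_lt_iff_lt_exp hx0]; exact hx₂
    rw [hc]; linarith
  have hexpc : Real.exp (-c) = x₀ := by rw [hc, neg_neg, Real.exp_log hx0]
  refine Q187.Arc.no_curve hγ hbv (t₁ := t₁) (c := c) ⟨ht₁a, ht₁b⟩ ?_ hc1 ?_
  · rw [← hL t₁ ⟨ht₁a.le, ht₁b.le⟩]
    exact hLpos t₁ ⟨ht₁a, ht₁b.le⟩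
  · intro t ht τ hτ hsupp hVt
    have htab : t ∈ Icc a b := ⟨ht.1.le, ht.2.trans ht₁b.le⟩
    have hτab : τ ∈ Icc a b := ⟨hτ.1.le, hτ.2.trans htab.2⟩
    have h1 : f t < x₀ := (hδsub ⟨ht.1, ht.2.trans_lt ht₁δ⟩).1
    rw [← hL t htab] at hVt
    rw [← hL t htab, ← hL τ hτab, hexpc]
    rw [hf, div_lt_iff₀ hVt] at h1
    refine lt_of_le_of_lt (le_csSup ?_ ?_) h1
    · refine ⟨arcLength γ a t, ?_⟩
      rintro _ ⟨τ', hτ', rfl⟩
      exact hmem t ⟨ht.1, ht.2.trans_lt ht₁b⟩ τ' hτ'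
    · exact ⟨τ, ⟨hτ, hsupp⟩, rfl⟩

end Pool.Agent.Results.MP_c53602_gt.ArcLengthRatio
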